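import Mathlib
import Pool.Agent.Helper25.ClAct
import Pool.Agent.Helper69.BQ.Defs

/-!
# Project BQ, pieces B10 and B11
-/

namespace Pool.Agent.Helper82.BQ

open Module NumberField Pool.Agent.Helper25.Biq Pool.Agent.Helper69.BQ

variable {K : Type} [Field K] [NumberField K] [IsGalois ℚ K] {g12 g13 g23 : ℤ}

/-- B10. If `I² = (a)` and `a σ(a) = c γ²` with `c` rational and `γ` fixed by `σ`, then `c`
generates the square of an ideal in the fixed field of `σ`. -/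
lemma sel_of_norm (D : Dat K g12 g13 g23) {a : 𝓞 K} {I : Ideal (𝓞 K)} (ha : a ≠ 0)
    (hI : I ^ 2 = Ideal.span {a}) {c : ℚ} (hc : c ≠ 0) {γ : K} (hγ0 : γ ≠ 0) (hγ : D.σ γ = γ)
    (h : algebraMap (𝓞 K) K a * D.σ (algebraMap (𝓞 K) K a) = algebraMap ℚ K c * γ ^ 2) :
    sc (algebraMap ℚ (fx D.σ) c) ∈ Sel (fx D.σ) := by
  obtain ⟨b, hb⟩ : ∃ b : 𝓞 (fx D.σ), b = Algebra.intNorm (𝓞 (fx D.σ)) (𝓞 K) a := ⟨_, rfl⟩
  have e1 : algebraMap (𝓞 (fx D.σ)) (fx D.σ) b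
      = Algebra.norm (fx D.σ) (algebraMap (𝓞 K) K a) := by
    rw [hb]
    exact Algebra.algebraMap_intNorm (A := 𝓞 (fx D.σ)) (K := fx D.σ) (L := K) (B := 𝓞 K) a
  have hb0 : b ≠ 0 := by
    intro h0
    rw [h0, map_zero, eq_comm, Algebra.norm_eq_zero_iff] at e1
    exact alg_ne_zero ha e1
  obtain ⟨γ', hγ'⟩ : ∃ γ' : fx D.σ, algebraMap (fx D.σ) K γ' = γ := ⟨⟨γ, mem_fx.2 hγ⟩, rfl⟩
  have hγ'0 : γ' ≠ 0 := by
    rintro rfl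
    rw [map_zero] at hγ'
    exact hγ0 hγ'.symm
  have e2 : algebraMap (𝓞 (fx D.σ)) (fx D.σ) b = algebraMap ℚ (fx D.σ) c * γ' ^ 2 := by
    apply (algebraMap (fx D.σ) K).injective
    rw [e1, norm_fx D.v4.s1 D.v4.ss, h, map_mul, map_pow, hγ']
    rfl
  have hc' : algebraMap ℚ (fx D.σ) c ≠ 0 := (map_ne_zero_iff _ (algebraMap ℚ (fx D.σ)).injective).2 hc
  refine mem_Sel.2 ⟨b, Ideal.relNorm (𝓞 (fx D.σ)) I, hb0, ?_, ?_⟩
  · rw [← map_pow, hI, Ideal.relNorm_singleton, hb]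
  · symm
    exact (sc_eq_iff (alg_ne_zero hb0) hc').2 ⟨γ', hγ'0, e2⟩

/-- B11. Surjectivity of the embedding of `Cl(K)[2]` onto the classes of elements which generate the
square of an ideal. -/
lemma exists_TT {a : 𝓞 K} {I : Ideal (𝓞 K)} (ha : a ≠ 0) (hI : I ^ 2 = Ideal.span {a}) :
    ∃ t : TT K, toQ t = (UCl K).mkQ (sc (algebraMap (𝓞 K) K a)) ∧
      ∀ g : K ≃ₐ[ℚ] K, toQ (act g t) = (UCl K).mkQ (sc (g (algebraMap (𝓞 K) K a))) := by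
  have hI0 : I ≠ 0 := by
    rintro rfl
    rw [zero_pow two_ne_zero] at hI
    exact ha (Ideal.span_singleton_eq_bot.1 hI.symm)
  have hmem : I ∈ nonZeroDivisors (Ideal (𝓞 K)) := mem_nonZeroDivisors_iff_ne_zero.2 hI0
  obtain ⟨J, hJ⟩ : ∃ J : nonZeroDivisors (Ideal (𝓞 K)), (J : Ideal (𝓞 K)) = I := ⟨⟨I, hmem⟩, rfl⟩
  have hJ2 : (J : Ideal (𝓞 K)) ^ 2 = Ideal.span {a} := by rw [hJ, hI]
  have hm : (J : Ideal (𝓞 K)) ^ 2 ∈ nonZeroDivisors (Ideal (𝓞 K)) := pow_mem J.2 2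
  have h0 : (⟨(J : Ideal (𝓞 K)) ^ 2, hm⟩ : nonZeroDivisors (Ideal (𝓞 K))) = J ^ 2 :=
    Subtype.ext (SubmonoidClass.coe_pow J 2).symm
  have h1 : ClassGroup.mk0 J ^ 2 = 1 := by
    rw [← map_pow, ← h0, ClassGroup.mk0_eq_one_iff hm, hJ2]
    exact ⟨⟨a, rfl⟩⟩
  refine ⟨TT.mk (ClassGroup.mk0 J) h1, ?_, fun g => ?_⟩
  · exact toQ_eq ha hJ2 rfl
  · exact toQ_act ha hJ2 rfl

end Pool.Agent.Helper82.BQ
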